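import Pool.Agent.Lib.MP_52bd65_al.Ins.Main

/-!
# MP_52bd65_al: amenable dense subgroups of the automorphism group of the ordered rationals

The definitions IsAmenable and ElemAmenable are in the file Pool.Agent.Lib.MP_52bd65_al.Ins.Class,
the definition IsDense is in the file Pool.Agent.Lib.MP_52bd65_al.Ins.Main.
-/

set_option autoImplicit false

namespace Pool.Agent.Results.MP_52bd65_al.DenseInAutQ

open Pool.Agent.Lib.MP_52bd65_al.Ins

/-- The group of all order automorphisms of the rationals has a countable subgroup which is dense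
(its action on the rationals is strongly transitive) and elementary amenable (and amenable in the
sense of the problem). Moreover, let Y be any countable totally ordered set and H any group
of order automorphisms of Y. Then there are a dense subgroup Γ of Aut(ℚ, <), an order embedding
i of Y into ℚ and an injective homomorphism φ from H into Γ with φ(h)(i(y)) = i(h(y)), such that Γ is
countable if H is countable, amenable if H is amenable and elementary amenable if H is elementary
amenable. -/
theorem result :
    (∃ Γ : Subgroup (ℚ ≃o ℚ), Countable Γ ∧ IsDense Γ ∧ IsAmenable Γ ∧ ElemAmenable Γ) ∧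
    ∀ (Y : Type) [LinearOrder Y] [Countable Y] (H : Subgroup (Y ≃o Y)),
      ∃ (Γ : Subgroup (ℚ ≃o ℚ)) (i : Y ↪o ℚ) (φ : H →* Γ),
        IsDense Γ ∧ (∀ (h : H) (y : Y), (φ h : ℚ ≃o ℚ) (i y) = i ((h : Y ≃o Y) y)) ∧
        Function.Injective φ ∧ (Countable H → Countable Γ) ∧
        (IsAmenable H → IsAmenable Γ) ∧ (ElemAmenable H → ElemAmenable Γ) := by
  refine ⟨?_, fun Y _ _ H => main Y H⟩
  obtain ⟨Γ, i, φ, h1, -, -, h4, h5, h6⟩ := main (Fin 0) (⊥ : Subgroup (Fin 0 ≃o Fin 0))
  exact ⟨Γ, h4 inferInstance, h1, h5 (cls_amenable.bot _), h6 (cls_elem.bot _)⟩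

end Pool.Agent.Results.MP_52bd65_al.DenseInAutQ
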